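import Pool.Agent.helper62.VQ.SpecE

/-!
# Row vqe:SML: short times
-/

set_option autoImplicit false

open scoped MatrixGroups ContDiff Topology UpperHalfPlane
open UpperHalfPlane MeasureTheory Filter Set

namespace Pool.Agent.VQE

open Pool.Agent.RS

theorem SML_lin {u v P Q : ℝ} (hu : |u| ≤ 9 / 8) (hv : |v| ≤ 9 / 8) (hP : |P - 1| ≤ 1 / 100) (hQ : |Q| ≤ 1 / 100) :
    |u * (P / 2) + v * Q| < 1 ∧ |-(u * Q) - v * (P / 2)| < 1 := by
  have hP2 : |P / 2| ≤ 101 / 200 := by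
    rw [abs_le] at hP ⊢
    constructor <;> linarith [hP.1, hP.2]
  have h1 : |u * (P / 2)| ≤ 9 / 8 * (101 / 200) := by
    rw [abs_mul]
    exact mul_le_mul hu hP2 (abs_nonneg _) (by norm_num)
  have h2 : |v * Q| ≤ 9 / 8 * (1 / 100) := by
    rw [abs_mul]
    exact mul_le_mul hv hQ (abs_nonneg _) (by norm_num)
  have h3 : |v * (P / 2)| ≤ 9 / 8 * (101 / 200) := by
    rw [abs_mul]
    exact mul_le_mul hv hP2 (abs_nonneg _) (by norm_num)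
  have h4 : |u * Q| ≤ 9 / 8 * (1 / 100) := by
    rw [abs_mul]
    exact mul_le_mul hu hQ (abs_nonneg _) (by norm_num)
  rw [abs_le] at h1 h2 h3 h4
  constructor
  · rw [abs_lt]
    constructor <;> linarith [h1.1, h1.2, h2.1, h2.2]
  · rw [abs_lt]
    constructor <;> linarith [h3.1, h3.2, h4.1, h4.2]

theorem SML_eps {ε z : ℝ} (hε : |ε| = 1) (hz : |z| < 1) : |ε * z| < 1 := by
  rw [abs_mul, hε, one_mul]
  exact hz

theorem SML_core (δ ε : ℝ) (a b c d P Q : ℝ → ℝ) (hδ : δ ≤ 1 / 100) (hε : |ε| = 1)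
    (hP : ∀ t, |P t - 1| ≤ δ) (hQ : ∀ t, |Q t| ≤ δ)
    (ha : ∀ t, HasDerivAt a (ε * (a t * (P t / 2) + b t * Q t)) t)
    (hb : ∀ t, HasDerivAt b (ε * (-(a t * Q t) - b t * (P t / 2))) t)
    (hc : ∀ t, HasDerivAt c (ε * (c t * (P t / 2) + d t * Q t)) t)
    (hd : ∀ t, HasDerivAt d (ε * (-(c t * Q t) - d t * (P t / 2))) t)
    (a0 : a 0 = 1) (b0 : b 0 = 0) (c0 : c 0 = 0) (d0 : d 0 = 1) :
    ∀ t, 0 ≤ t → t ≤ 1 / 8 → |a t - 1| ≤ t ∧ |b t| ≤ t ∧ |c t| ≤ t ∧ |d t - 1| ≤ t := by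
  have hder : ∀ t, HasDerivAt (fun t => ((a t - 1, b t), (c t, d t - 1)))
      ((ε * (a t * (P t / 2) + b t * Q t), ε * (-(a t * Q t) - b t * (P t / 2))),
        (ε * (c t * (P t / 2) + d t * Q t), ε * (-(c t * Q t) - d t * (P t / 2)))) t := fun t =>
    (((ha t).sub_const 1).prodMk (hb t)).prodMk ((hc t).prodMk ((hd t).sub_const 1))
  have key := image_norm_le_of_norm_deriv_right_lt_deriv_boundary (a := 0) (b := 1 / 8)
    (f := fun t => ((a t - 1, b t), (c t, d t - 1)))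
    (f' := fun t => ((ε * (a t * (P t / 2) + b t * Q t), ε * (-(a t * Q t) - b t * (P t / 2))),
        (ε * (c t * (P t / 2) + d t * Q t), ε * (-(c t * Q t) - d t * (P t / 2)))))
    (B := fun t => t) (B' := fun _ => 1)
    (fun t _ => (hder t).continuousAt.continuousWithinAt) (fun t _ => (hder t).hasDerivWithinAt)
    (by simp [a0, b0, c0, d0]) (fun t => hasDerivAt_id t)
    (by
      intro t ht hn
      have hn' : ‖(((a t - 1, b t), (c t, d t - 1)) : (ℝ × ℝ) × (ℝ × ℝ))‖ ≤ 1 / 8 := by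
        have h2 := ht.2
        change ‖(((a t - 1, b t), (c t, d t - 1)) : (ℝ × ℝ) × (ℝ × ℝ))‖ = t at hn
        rw [hn]
        exact h2.le
      rw [norm_prod_le_iff, norm_prod_le_iff, norm_prod_le_iff] at hn'
      obtain ⟨⟨h1, h2⟩, h3, h4⟩ := hn'
      simp only [Real.norm_eq_abs] at h1 h2 h3 h4
      have hP' := (hP t).trans hδ
      have hQ' := (hQ t).trans hδ
      have ha' : |a t| ≤ 9 / 8 := by
        rw [abs_le] at h1 ⊢
        constructor <;> linarith [h1.1, h1.2]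
      have hd' : |d t| ≤ 9 / 8 := by
        rw [abs_le] at h4 ⊢
        constructor <;> linarith [h4.1, h4.2]
      have hb' : |b t| ≤ 9 / 8 := h2.trans (by norm_num)
      have hc' : |c t| ≤ 9 / 8 := h3.trans (by norm_num)
      obtain ⟨r1, r2⟩ := SML_lin ha' hb' hP' hQ'
      obtain ⟨r3, r4⟩ := SML_lin hc' hd' hP' hQ'
      change ‖(((ε * (a t * (P t / 2) + b t * Q t), ε * (-(a t * Q t) - b t * (P t / 2))),
        (ε * (c t * (P t / 2) + d t * Q t), ε * (-(c t * Q t) - d t * (P t / 2)))) : (ℝ × ℝ) × (ℝ × ℝ))‖ < 1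
      rw [Prod.norm_def, Prod.norm_def, Prod.norm_def]
      simp only [Real.norm_eq_abs]
      exact max_lt (max_lt (SML_eps hε r1) (SML_eps hε r2)) (max_lt (SML_eps hε r3) (SML_eps hε r4)))
  intro t ht0 ht1
  have h := key ⟨ht0, ht1⟩
  change ‖(((a t - 1, b t), (c t, d t - 1)) : (ℝ × ℝ) × (ℝ × ℝ))‖ ≤ t at h
  rw [norm_prod_le_iff, norm_prod_le_iff, norm_prod_le_iff] at h
  obtain ⟨⟨h1, h2⟩, h3, h4⟩ := h
  exact ⟨h1, h2, h3, h4⟩

theorem SML_ent (g h : SL(2, ℝ)) (i j : Fin 2) :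
    (g⁻¹ * h).1 i j = (g⁻¹).1 i 0 * h.1 0 j + (g⁻¹).1 i 1 * h.1 1 j := by
  rw [Matrix.SpecialLinearGroup.coe_mul, Matrix.mul_apply, Fin.sum_univ_two]

theorem SML_d0 {p q : SL(2, ℝ) → ℝ} {f : ℝ → SL(2, ℝ) → SL(2, ℝ)} (hf : Flw p q f) (g : SL(2, ℝ)) (i : Fin 2) (t : ℝ) :
    HasDerivAt (fun s => (g⁻¹ * f s g).1 i 0)
      ((g⁻¹ * f t g).1 i 0 * (p (f t g) / 2) + (g⁻¹ * f t g).1 i 1 * q (f t g)) t := by
  have h := ((hf.d0 0 t g).const_mul ((g⁻¹).1 i 0)).add ((hf.d0 1 t g).const_mul ((g⁻¹).1 i 1))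
  have h1 : (fun s => (g⁻¹ * f s g).1 i 0) =
      fun s => (g⁻¹).1 i 0 * (f s g).1 0 0 + (g⁻¹).1 i 1 * (f s g).1 1 0 := by
    funext s
    exact SML_ent g (f s g) i 0
  rw [h1]
  refine h.congr_deriv ?_
  rw [SML_ent, SML_ent]
  ring

theorem SML_d1 {p q : SL(2, ℝ) → ℝ} {f : ℝ → SL(2, ℝ) → SL(2, ℝ)} (hf : Flw p q f) (g : SL(2, ℝ)) (i : Fin 2) (t : ℝ) :
    HasDerivAt (fun s => (g⁻¹ * f s g).1 i 1)
      (-((g⁻¹ * f t g).1 i 0 * q (f t g)) - (g⁻¹ * f t g).1 i 1 * (p (f t g) / 2)) t := by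
  have h := ((hf.d1 0 t g).const_mul ((g⁻¹).1 i 0)).add ((hf.d1 1 t g).const_mul ((g⁻¹).1 i 1))
  have h1 : (fun s => (g⁻¹ * f s g).1 i 1) =
      fun s => (g⁻¹).1 i 0 * (f s g).1 0 1 + (g⁻¹).1 i 1 * (f s g).1 1 1 := by
    funext s
    exact SML_ent g (f s g) i 1
  rw [h1]
  refine h.congr_deriv ?_
  rw [SML_ent, SML_ent]
  ring

theorem SML_neg {F : ℝ → ℝ} {F' t : ℝ} (h : HasDerivAt F F' (-t)) : HasDerivAt (fun s => F (-s)) (-1 * F') t := by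
  have h1 := HasDerivAt.comp t h (hasDerivAt_neg t)
  exact h1.congr_deriv (by ring)

theorem SML_nm {δ : ℝ} {p q : SL(2, ℝ) → ℝ} {f : ℝ → SL(2, ℝ) → SL(2, ℝ)} (hδ : δ ≤ 1 / 100)
    (hF : Fld δ p q) (hf : Flw p q f) (g : SL(2, ℝ)) (t : ℝ) (ht : |t| ≤ 1 / 8) :
    |(g⁻¹ * f t g).1 0 0 - 1| ≤ |t| ∧ |(g⁻¹ * f t g).1 0 1| ≤ |t| ∧ |(g⁻¹ * f t g).1 1 0| ≤ |t| ∧
      |(g⁻¹ * f t g).1 1 1 - 1| ≤ |t| := by
  have h0 : g⁻¹ * f 0 g = 1 := by rw [hf.zero, inv_mul_cancel]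
  rcases le_total 0 t with h | h
  · have key := SML_core δ 1 (fun s => (g⁻¹ * f s g).1 0 0) (fun s => (g⁻¹ * f s g).1 0 1)
      (fun s => (g⁻¹ * f s g).1 1 0) (fun s => (g⁻¹ * f s g).1 1 1) (fun s => p (f s g)) (fun s => q (f s g)) hδ
      abs_one (fun s => hF.p0 _) (fun s => hF.q0 _)
      (fun s => (SML_d0 hf g 0 s).congr_deriv (by ring)) (fun s => (SML_d1 hf g 0 s).congr_deriv (by ring))
      (fun s => (SML_d0 hf g 1 s).congr_deriv (by ring)) (fun s => (SML_d1 hf g 1 s).congr_deriv (by ring))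
      (by simp [h0]) (by simp [h0]) (by simp [h0]) (by simp [h0]) t h (by rwa [abs_of_nonneg h] at ht)
    rw [abs_of_nonneg h]
    exact key
  · have key := SML_core δ (-1) (fun s => (g⁻¹ * f (-s) g).1 0 0) (fun s => (g⁻¹ * f (-s) g).1 0 1)
      (fun s => (g⁻¹ * f (-s) g).1 1 0) (fun s => (g⁻¹ * f (-s) g).1 1 1) (fun s => p (f (-s) g))
      (fun s => q (f (-s) g)) hδ
      (by rw [abs_neg, abs_one]) (fun s => hF.p0 _) (fun s => hF.q0 _)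
      (fun s => SML_neg (SML_d0 hf g 0 (-s))) (fun s => SML_neg (SML_d1 hf g 0 (-s)))
      (fun s => SML_neg (SML_d0 hf g 1 (-s))) (fun s => SML_neg (SML_d1 hf g 1 (-s)))
      (by simp [h0]) (by simp [h0]) (by simp [h0]) (by simp [h0]) (-t) (by linarith)
      (by rwa [abs_of_nonpos h] at ht)
    rw [abs_of_nonpos h]
    simp only [neg_neg] at key
    exact key

theorem SML_mvt {F F' : ℝ → ℝ} {r C k t t' : ℝ} (hF : ∀ s, HasDerivAt F (F' s) s)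
    (hb : ∀ s, |s| ≤ r → |F' s - k| ≤ C) (ht : |t| ≤ r) (ht' : |t'| ≤ r) :
    |F t - F t' - k * (t - t')| ≤ C * |t - t'| := by
  have h := Convex.norm_image_sub_le_of_norm_hasDerivWithin_le (s := Icc (-r) r) (f := fun s => F s - k * s)
    (f' := fun s => F' s - k) (C := C) (x := t') (y := t)
    (fun s _ => ((hF s).sub (((hasDerivAt_id s).const_mul k).congr_deriv (mul_one k))).hasDerivWithinAt)
    (fun s hs => hb s (abs_le.2 hs)) (convex_Icc _ _) (abs_le.1 ht') (abs_le.1 ht)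
  rw [Real.norm_eq_abs, Real.norm_eq_abs] at h
  have h1 : F t - k * t - (F t' - k * t') = F t - F t' - k * (t - t') := by ring
  rwa [h1] at h

theorem SML_proof (h1 : NMB_stmt) : SML_stmt := by
  intro δ p q f hδ0 hδ hF hf g r t t' hr ht ht'
  have hr0 : 0 ≤ r := (abs_nonneg t).trans ht
  have hM : ∀ s, |s| ≤ r → |(g⁻¹ * f s g).1 0 0 - 1| ≤ r ∧ |(g⁻¹ * f s g).1 0 1| ≤ r ∧
      |(g⁻¹ * f s g).1 1 0| ≤ r ∧ |(g⁻¹ * f s g).1 1 1 - 1| ≤ r := by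
    intro s hs
    obtain ⟨k1, k2, k3, k4⟩ := SML_nm hδ hF hf g s (hs.trans hr)
    exact ⟨k1.trans hs, k2.trans hs, k3.trans hs, k4.trans hs⟩
  have hbig : ∀ u v P Q : ℝ, |u - 1| ≤ r → |v| ≤ r → |P - 1| ≤ δ → |Q| ≤ δ →
      |u * (P / 2) + v * Q - 1 / 2| ≤ 2 * r + 2 * δ ∧ |-(u * Q) - v * (P / 2) - 0| ≤ 2 * r + 2 * δ ∧
      |v * (P / 2) + u * Q - 0| ≤ 2 * r + 2 * δ ∧ |-(v * Q) - u * (P / 2) - (-(1 / 2))| ≤ 2 * r + 2 * δ := by
    intro u v P Q hu hv hP hQ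
    have e1 : |(u - 1) * (P / 2)| ≤ r * (101 / 200) := by
      rw [abs_mul]
      refine mul_le_mul hu ?_ (abs_nonneg _) hr0
      rw [abs_le] at hP ⊢
      constructor <;> linarith [hP.1, hP.2]
    have e2 : |v * Q| ≤ r * (1 / 100) := by
      rw [abs_mul]
      exact mul_le_mul hv (hQ.trans hδ) (abs_nonneg _) hr0
    have e3 : |v * (P / 2)| ≤ r * (101 / 200) := by
      rw [abs_mul]
      refine mul_le_mul hv ?_ (abs_nonneg _) hr0
      rw [abs_le] at hP ⊢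
      constructor <;> linarith [hP.1, hP.2]
    have e4 : |(u - 1) * Q| ≤ r * (1 / 100) := by
      rw [abs_mul]
      exact mul_le_mul hu (hQ.trans hδ) (abs_nonneg _) hr0
    rw [abs_le] at e1 e2 e3 e4 hP hQ
    have f1 : u * (P / 2) = (u - 1) * (P / 2) + P / 2 := by ring
    have f2 : u * Q = (u - 1) * Q + Q := by ring
    rw [f1, f2]
    refine ⟨?_, ?_, ?_, ?_⟩ <;> rw [abs_le] <;> constructor <;>
      linarith [e1.1, e1.2, e2.1, e2.2, e3.1, e3.2, e4.1, e4.2, hP.1, hP.2, hQ.1, hQ.2]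
  have b00 := SML_mvt (k := 1 / 2) (C := 2 * r + 2 * δ) (SML_d0 hf g 0)
    (fun s hs => (hbig _ _ _ _ (hM s hs).1 (hM s hs).2.1 (hF.p0 _) (hF.q0 _)).1) ht ht'
  have b01 := SML_mvt (k := 0) (C := 2 * r + 2 * δ) (SML_d1 hf g 0)
    (fun s hs => (hbig _ _ _ _ (hM s hs).1 (hM s hs).2.1 (hF.p0 _) (hF.q0 _)).2.1) ht ht'
  have b10 := SML_mvt (k := 0) (C := 2 * r + 2 * δ) (SML_d0 hf g 1)
    (fun s hs => (hbig _ _ _ _ (hM s hs).2.2.2 (hM s hs).2.2.1 (hF.p0 _) (hF.q0 _)).2.2.1) ht ht'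
  have b11 := SML_mvt (k := -(1 / 2)) (C := 2 * r + 2 * δ) (SML_d1 hf g 1)
    (fun s hs => (hbig _ _ _ _ (hM s hs).2.2.2 (hM s hs).2.2.1 (hF.p0 _) (hF.q0 _)).2.2.2) ht ht'
  obtain ⟨k1, k2, k3, k4⟩ := SML_nm hδ hF hf g t (ht.trans hr)
  refine ⟨max_le (max_le k1 k2) (max_le k3 k4), ?_, ?_, ?_, ?_⟩
  · have e : (t - t') / 2 = 1 / 2 * (t - t') := by ring
    rw [e]
    exact b00
  · have e : (g⁻¹ * f t g).1 1 1 - (g⁻¹ * f t' g).1 1 1 + (t - t') / 2 =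
        (g⁻¹ * f t g).1 1 1 - (g⁻¹ * f t' g).1 1 1 - -(1 / 2) * (t - t') := by ring
    rw [e]
    exact b11
  · rw [zero_mul, sub_zero] at b01
    exact b01
  · rw [zero_mul, sub_zero] at b10
    exact b10

end Pool.Agent.VQE
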